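import Pool.Agent.Lib.MP_cbe5a6_an.Bk

/-!
The six-linear inequality on the circle, with the form written through the densities of the
threefold convolutions.
-/

set_option autoImplicit false

namespace Pool.Agent.Results.MP_cbe5a6_an.Densities

open MeasureTheory Filter Topology Pool.Agent.Lib.MP_cbe5a6_an
open scoped Manifold ContDiff

theorem result (f : Circle → ℝ) (hf : ContMDiff (𝓡 1) 𝓘(ℝ, ℝ) ∞ f) (he : ∀ x, f (-x) = f x) :
    (∃ F H G : ℂ → ℝ, IsDens f F ∧ IsDens (fun x => f x ^ 2) H ∧ IsDens (fun _ => 1) G) ∧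
    ∀ F H G : ℂ → ℝ, IsDens f F → IsDens (fun x => f x ^ 2) H → IsDens (fun _ => 1) G →
      Integrable (fun y => (‖y‖ ^ 2 - 1) * F y * F (-y)) ∧
      Integrable (fun y => (‖y‖ ^ 2 - 1) * H y * G (-y)) ∧
      ∫ y, (‖y‖ ^ 2 - 1) * F y * F (-y) ≤ ∫ y, (‖y‖ ^ 2 - 1) * H y * G (-y) := by
  have hc := hf.continuous
  have hc2 : Continuous fun x => f x ^ 2 := hc.pow 2
  refine ⟨?_, fun F H G hF hH hG => ?_⟩
  · obtain ⟨_, -, h1, -⟩ := Bk.dens_of hc
    obtain ⟨_, -, h2, -⟩ := Bk.dens_of hc2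
    obtain ⟨_, -, h3, -⟩ := Bk.dens_of (g := fun _ => 1) continuous_const
    exact ⟨_, _, _, h1, h2, h3⟩
  obtain ⟨h1, h2⟩ := Bk.lim' hc hc hF hF (P := fun θ => ∏ j, f (Circle.exp (θ j))) (by fun_prop)
    fun x x' => by simp [Fin.prod_univ_six, Fin.prod_univ_three, ConvAux.cat, mul_assoc]
  obtain ⟨h3, h4⟩ := Bk.lim' hc2 continuous_const hH hG
    (P := fun θ => ∏ j : Fin 6, if (j : ℕ) < 3 then f (Circle.exp (θ j)) ^ 2 else 1)
    (continuous_finsetProd _ fun j _ => by split_ifs <;> fun_prop)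
    fun x x' => by simp [Fin.prod_univ_six, Fin.prod_univ_three, ConvAux.cat]
  refine ⟨h1, h3, le_of_forall_pos_le_add fun δ hδ => ?_⟩
  obtain ⟨e, he0, h5⟩ := target _ (fun _ _ => rfl) (fun t => f (Circle.exp t))
    (hf.comp contMDiff_circleExp).contDiff (fun t => by
      refine Eq.trans (congrArg f ?_) (he (Circle.exp t))
      ext
      simp [add_mul, Complex.exp_add]) δ hδ
  refine le_of_tendsto_of_tendsto h2 (h4.add_const δ) ?_
  filter_upwards [Ioo_mem_nhdsGT he0] with ε hε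
  simpa only [Red.kernel_eq, I6] using h5 ε hε.1 hε.2

end Pool.Agent.Results.MP_cbe5a6_an.Densities
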